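import Pool.Agent.H815.QC.Stm3

/-!
# Project QC, L2: pieces of the large factor, second direction
-/

set_option autoImplicit false

namespace Pool.Agent.H196.QC

open Pool.Agent.Y110.FJ Pool.Agent.T2H65.GP Pool.Agent.H815.QC

theorem grp1 {G : Type} [Group G] (a b x : G) :
    a⁻¹ * (b * x * b⁻¹) * a = (b⁻¹ * a)⁻¹ * x * (b⁻¹ * a) := by group

theorem grp2 {G : Type} [Group G] (x : G) : (1 : G)⁻¹ * x * 1 = x := by group

theorem grp3 {G : Type} [Group G] (b x : G) (h : b * x * b⁻¹ = 1) : x = 1 := by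
  have h1 : x = b⁻¹ * (b * x * b⁻¹) * b := by group
  rw [h1, h]
  group

theorem grp4 {G : Type} [Group G] (a b : G) : a * (a⁻¹ * b) = b := by group

theorem gp_mem {V : Type} (Λ : SimpleGraph V) {T : V → Prop} {w : V} (hw : T w) (m : ℤ) :
    gp Λ w m ∈ std Λ (B2 V) T :=
  (mem_std Λ (B2 V)).2 (er_of Λ (B2 V) hw _)

theorem gp_ne {V : Type} [Finite V] (Λ : SimpleGraph V) (hR9 : S_R9) (w : V) (m : ℤ) (hm : m ≠ 0) :
    gp Λ w m ≠ 1 := by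
  intro h
  have h1 : (1 : P2 Λ)⁻¹ * gp Λ w m * 1 ∈ std Λ (B2 V) (fun _ => False) := by
    rw [grp2, h]
    exact one_mem _
  exact (hR9 V Λ w m (fun _ => False) 1 hm h1).1

theorem lc_eq {V : Type} (Λ : SimpleGraph V) (S S' : V → Prop) (w : V) (hc : Cl2 Λ S')
    (hsub : ∀ u, S' u → pp Λ S u) (hl : ∀ w, S' w → ∀ u, Λ.Adj w u ↔ pp Λ S' u) (hw : S' w) :
    lc Λ S w = S' := by
  funext w'
  refine propext ⟨?_, ?_⟩
  · rintro ⟨h1, h2⟩
    refine hc.clo w' fun u hu => ?_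
    exact (h2 u).2 ((hl w hw u).2 hu)
  · intro h1
    refine ⟨hsub w' h1, fun u => ?_⟩
    exact (hl w' h1 u).trans (hl w hw u).symm

theorem L2_proof (hCUT : S_CUT) (hL1 : S_L1) (hB7 : S_B7) (hP5 : S_P5) (hR4 : S_R4) (hR7 : S_R7)
    (hR8 : S_R8) (hR9 : S_R9) : Pool.Agent.H815.QC.S_L2 := by
  intro N _ V _ Λ α β S hBs w hw y hy
  have htf : TFr N := hB7 V Λ N β hBs.vb.1
  obtain ⟨m, hm, n, hn⟩ := hR4 V Λ N β hBs.vb y w
  have hm0 : m ≠ 0 := ne_of_gt hm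
  have hn1 : n ≠ 1 := by
    intro h
    rw [h, map_one] at hn
    exact gp_ne Λ hR9 w m hm0 (grp3 y _ hn.symm)
  have hnA : n ∈ As Λ β 1 (pp Λ S) := by
    refine mem_pb.2 ?_
    rw [grp2, hn]
    exact mul_mem (mul_mem hy (gp_mem Λ hw m)) (inv_mem hy)
  have hnK : n ∈ Ks α 0 1 := by
    rw [hBs.hK]
    exact hnA
  rcases hP5 N α hBs.va htf 0 1 n hnK hn1 with ⟨v', y', hv', hy', hnH⟩ | hcom
  · rw [one_mul] at hnH
    obtain ⟨q, hq, S', hc, hsub, hH, hK, hl⟩ := hL1 N V Λ α β S hBs v' y' hv' hy'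
    rw [hH] at hnH
    have h1 : q⁻¹ * β n * q ∈ std Λ (B2 V) S' := mem_pb.1 hnH
    rw [hn, grp1] at h1
    obtain ⟨h2, h3⟩ := hR9 V Λ w m S' (y⁻¹ * q) hm0 h1
    have h4 := h3 (hl w h2)
    have h5 : lc Λ S w = S' := lc_eq Λ S S' w hc hsub hl h2
    have h6 := (hR7 V Λ N β hBs.vb.1 y S').2.2 (y⁻¹ * q) h4
    rw [grp4] at h6
    refine ⟨v', y', hv', hy', ?_, ?_⟩
    · rw [h5]
      exact hc
    · rw [h5, hH]
      exact h6
  · exfalso
    rw [hBs.hH] at hcom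
    have h1 := hR8 V Λ N β hBs.vb w m y 1 n S hm0 hn (fun u hu => hw u hu) hBs.cl2.ind' hcom
    exact hCUT N V Λ α β S hBs w hw fun u => ⟨fun h => h1 u h, fun h => hw u h⟩

end Pool.Agent.H196.QC
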